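import Pool.Agent.L5helper98.ID.Defs

set_option autoImplicit false

open MeasureTheory ProbabilityTheory Filter Topology Set
open scoped ENNReal BoundedContinuousFunction

namespace Pool.Agent.L5helper8.ID

open Pool.Agent.L5helper98.ID

noncomputable section

lemma tri_nonneg (t x : ℝ) : 0 ≤ tri t x := le_max_right _ _

lemma tri_cont (t : ℝ) : Continuous (tri t) := by
  unfold tri
  fun_prop

lemma tri_mul {t : ℝ} (ht : 0 < t) (x y : ℝ) :
    t * tri t (x - y) = max (min x y - (max x y - t)) 0 := by
  unfold tri
  rw [mul_max_of_nonneg _ _ ht.le, mul_zero]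
  congr 1
  have h1 : |x - y| = max x y - min x y := (max_sub_min_eq_abs x y).symm ▸ abs_sub_comm x y ▸ rfl
  rw [h1]
  field_simp
  ring

/-- the set of the `(u, x, y)` with `u ≤ x, y ≤ u + t` -/
def SS (t : ℝ) : Set (ℝ × ℝ × ℝ) := {q | max q.2.1 q.2.2 - t ≤ q.1 ∧ q.1 ≤ min q.2.1 q.2.2}

lemma SS_meas (t : ℝ) : MeasurableSet (SS t) := by
  have h1 : MeasurableSet {q : ℝ × ℝ × ℝ | max q.2.1 q.2.2 - t ≤ q.1} :=
    measurableSet_le (by fun_prop) (by fun_prop)
  have h2 : MeasurableSet {q : ℝ × ℝ × ℝ | q.1 ≤ min q.2.1 q.2.2} :=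
    measurableSet_le (by fun_prop) (by fun_prop)
  exact h1.inter h2

/-- the integrand -/
def gg (f : ℝ → ℝ) (q : ℝ × ℝ × ℝ) : ℝ := f q.2.1 * f q.2.2

lemma H_int {f : ℝ → ℝ} (hf : Continuous f) (hc : HasCompactSupport f) (t : ℝ) :
    Integrable ((SS t).indicator (gg f)) ((volume : Measure ℝ).prod (volume : Measure (ℝ × ℝ))) := by
  obtain ⟨R, hR⟩ := hc.isCompact.isBounded.subset_closedBall 0
  have hz : ∀ x, x ∉ Icc (-R) R → f x = 0 := by
    intro x hx
    by_contra h
    have h1 := hR (subset_tsupport f h)
    rw [mem_closedBall_zero_iff, Real.norm_eq_abs, abs_le] at h1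
    exact hx ⟨h1.1, h1.2⟩
  set K : Set (ℝ × ℝ × ℝ) := Icc (-R - t) R ×ˢ (Icc (-R) R ×ˢ Icc (-R) R) with hK
  have e : (SS t).indicator (gg f) = (SS t ∩ K).indicator (gg f) := by
    funext q
    by_cases h1 : q ∈ SS t
    · rw [indicator_of_mem h1]
      by_cases h2 : q ∈ K
      · rw [indicator_of_mem (show q ∈ SS t ∩ K from ⟨h1, h2⟩)]
      · rw [indicator_of_notMem (fun h => h2 h.2)]
        unfold gg
        by_cases h3 : q.2.1 ∈ Icc (-R) R
        · by_cases h4 : q.2.2 ∈ Icc (-R) R
          · exfalso
            apply h2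
            refine ⟨⟨?_, ?_⟩, h3, h4⟩
            · have := h1.1
              have h5 := le_max_left q.2.1 q.2.2
              linarith [h3.1]
            · have := h1.2
              have h5 := min_le_left q.2.1 q.2.2
              linarith [h3.2]
          · rw [hz _ h4, mul_zero]
        · rw [hz _ h3, zero_mul]
    · rw [indicator_of_notMem h1, indicator_of_notMem (fun h => h1 h.1)]
  have hKc : IsCompact K := isCompact_Icc.prod (isCompact_Icc.prod isCompact_Icc)
  have hg : Continuous (gg f) := by
    unfold gg
    fun_prop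
  rw [e, integrable_indicator_iff ((SS_meas t).inter hKc.measurableSet)]
  exact (hg.continuousOn.integrableOn_compact hKc).mono_set inter_subset_right

lemma tri_pos {f : ℝ → ℝ} (hf : Continuous f) (hc : HasCompactSupport f) {t : ℝ} (ht : 0 < t) :
    0 ≤ ∫ x, ∫ y, tri t (x - y) * f x * f y := by
  have hH := H_int hf hc t
  have h1 := integral_prod _ hH
  have h2 := integral_prod_symm _ hH
  -- first evaluation
  have e1 : ∀ u : ℝ, ∫ p : ℝ × ℝ, (SS t).indicator (gg f) (u, p) =
      (∫ x, (Icc u (u + t)).indicator f x) * ∫ y, (Icc u (u + t)).indicator f y := by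
    intro u
    rw [← integral_prod_mul]
    refine integral_congr_ae (Eventually.of_forall fun p => ?_)
    simp only
    by_cases h3 : p.1 ∈ Icc u (u + t)
    · by_cases h4 : p.2 ∈ Icc u (u + t)
      · have h5 : ((u, p) : ℝ × ℝ × ℝ) ∈ SS t :=
          ⟨by have := max_le h3.2 h4.2; simp only; linarith, le_min h3.1 h4.1⟩
        rw [indicator_of_mem h5, indicator_of_mem h3, indicator_of_mem h4]
        rfl
      · rw [indicator_of_notMem h4, mul_zero, indicator_of_notMem]
        intro h5
        apply h4
        have h6 := h5.1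
        have h7 := h5.2
        simp only at h6 h7
        exact ⟨h7.trans (min_le_right _ _), by linarith [le_max_right p.1 p.2]⟩
    · rw [indicator_of_notMem h3, zero_mul, indicator_of_notMem]
      intro h5
      apply h3
      have h6 := h5.1
      have h7 := h5.2
      simp only at h6 h7
      exact ⟨h7.trans (min_le_left _ _), by linarith [le_max_left p.1 p.2]⟩
  -- second evaluation
  have e2 : ∀ p : ℝ × ℝ, ∫ u : ℝ, (SS t).indicator (gg f) (u, p) =
      t * (tri t (p.1 - p.2) * f p.1 * f p.2) := by
    intro p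
    have h3 : ∀ u : ℝ, (SS t).indicator (gg f) (u, p) =
        (Icc (max p.1 p.2 - t) (min p.1 p.2)).indicator (fun _ => f p.1 * f p.2) u := by
      intro u
      by_cases h4 : u ∈ Icc (max p.1 p.2 - t) (min p.1 p.2)
      · have h5 : ((u, p) : ℝ × ℝ × ℝ) ∈ SS t := ⟨h4.1, h4.2⟩
        rw [indicator_of_mem h4, indicator_of_mem h5]
        rfl
      · rw [indicator_of_notMem h4, indicator_of_notMem]
        exact fun h5 => h4 ⟨h5.1, h5.2⟩
    simp only [h3]
    rw [integral_indicator measurableSet_Icc, setIntegral_const, Real.volume_real_Icc, smul_eq_mul]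
    have := tri_mul ht p.1 p.2
    rw [← this]
    ring
  simp only [e1] at h1
  simp only [e2] at h2
  rw [integral_const_mul] at h2
  have h3 : 0 ≤ ∫ u, (∫ x, (Icc u (u + t)).indicator f x) * ∫ y, (Icc u (u + t)).indicator f y :=
    integral_nonneg fun u => mul_self_nonneg _
  rw [← h1, h2] at h3
  have h4 : Integrable (fun p : ℝ × ℝ => tri t (p.1 - p.2) * f p.1 * f p.2)
      ((volume : Measure ℝ).prod (volume : Measure ℝ)) := by
    have hcont : Continuous (fun p : ℝ × ℝ => tri t (p.1 - p.2) * f p.1 * f p.2) := by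
      have := tri_cont t
      fun_prop
    refine hcont.integrable_of_hasCompactSupport ?_
    refine HasCompactSupport.intro (hc.isCompact.prod hc.isCompact) fun p hp => ?_
    by_cases h5 : p.1 ∈ tsupport f
    · have h6 : p.2 ∉ tsupport f := fun h => hp ⟨h5, h⟩
      rw [image_eq_zero_of_notMem_tsupport h6, mul_zero]
    · rw [image_eq_zero_of_notMem_tsupport h5]
      ring
  have h5 := integral_prod _ h4
  rw [Measure.volume_eq_prod, h5] at h3
  exact nonneg_of_mul_nonneg_right h3 ht

lemma tri_bound {f : ℝ → ℝ} (hf : Continuous f) (hc : HasCompactSupport f) :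
    ∃ C : ℝ, ∀ t : ℝ, 0 < t → t ≤ 1 → ∫ x, ∫ y, |tri t (x - y) * f x * f y| ≤ C * t := by
  obtain ⟨M, hM⟩ := hf.bounded_above_of_compact_support hc
  have hM0 : 0 ≤ M := (norm_nonneg _).trans (hM 0)
  have hfi : Integrable f := hf.integrable_of_hasCompactSupport hc
  refine ⟨2 * M * ∫ x, |f x|, fun t ht _ => ?_⟩
  have h1 : ∀ x, ∫ y, |tri t (x - y) * f x * f y| ≤ 2 * t * (M * |f x|) := by
    intro x
    have h2 : ∫ y, |tri t (x - y) * f x * f y| ≤
        ∫ y, (Icc (x - t) (x + t)).indicator (fun _ => M * |f x|) y := by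
      refine integral_mono_of_nonneg (Eventually.of_forall fun y => abs_nonneg _) ?_
        (Eventually.of_forall fun y => ?_)
      · rw [integrable_indicator_iff measurableSet_Icc]
        exact integrableOn_const (by simp) enorm_ne_top
      · simp only
        by_cases h3 : y ∈ Icc (x - t) (x + t)
        · rw [indicator_of_mem h3, abs_mul, abs_mul, abs_of_nonneg (tri_nonneg _ _)]
          have h4 : tri t (x - y) ≤ 1 := by
            unfold tri
            refine max_le ?_ zero_le_one
            have : 0 ≤ |x - y| / t := by positivity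
            linarith
          have h5 : |f y| ≤ M := hM y
          calc tri t (x - y) * |f x| * |f y| ≤ 1 * |f x| * M := by
                gcongr
            _ = M * |f x| := by ring
        · rw [indicator_of_notMem h3]
          have h4 : tri t (x - y) = 0 := by
            unfold tri
            apply max_eq_right
            rw [sub_nonpos, le_div_iff₀ ht, one_mul]
            by_contra h5
            rw [not_le, abs_lt] at h5
            exact h3 ⟨by linarith [h5.2], by linarith [h5.1]⟩
          rw [h4]
          simp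
    refine h2.trans (le_of_eq ?_)
    rw [integral_indicator measurableSet_Icc, setIntegral_const, Real.volume_real_Icc, smul_eq_mul,
      max_eq_left (by linarith)]
    ring
  calc ∫ x, ∫ y, |tri t (x - y) * f x * f y| ≤ ∫ x, 2 * t * (M * |f x|) := by
        refine integral_mono_of_nonneg (Eventually.of_forall fun x => ?_) ?_
          (Eventually.of_forall fun x => h1 x)
        · exact integral_nonneg fun y => abs_nonneg _
        · exact (hfi.abs.const_mul M).const_mul (2 * t)
    _ = 2 * M * (∫ x, |f x|) * t := by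
        rw [integral_const_mul, integral_const_mul]
        ring

theorem TRI_holds : St_TRI := fun _ hf hc => ⟨fun _ ht => tri_pos hf hc ht, tri_bound hf hc⟩

end

end Pool.Agent.L5helper8.ID
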